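import Pool.Agent.U497.AW.PolyWin

/-!
# The values without small prime factors of EVERY quadratic polynomial in all windows around almost all integers

Let `f = ax² + bx + c` be ANY quadratic polynomial with integral coefficients (of any size) without fixed divisor and let `(Y, Y + H]` be
ANY interval (`Y` is arbitrary too). Let `z` be a certain number between two small powers of `H`, `H ^ δ ≤ z ≤ H ^ θ`, which depends on
`ε, θ, H` only, and let `V = ∏_{p ≤ z} (1 - ω(p) / p)` be the sieve product. We prove that for all but `ε H` of the integers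
`n` of the interval, ALL the windows `(u, v]` around `n` inside `(Y, Y + H]` of length at least `K / V` simultaneously contain the expected
number `(v - u) V` of integers `m` for which `f(m)` has no prime factor `p ≤ z`, up to a relative error `ε`. Up to constants `V` is
`𝔖 / log H`, where `𝔖` is the constant of Hardy and Littlewood (over the primes `≤ z`), so the shortest windows have the length `K'` times
the average distance of the `m` with prime `f(m)`. If the coefficients and `Y` are `≤ H ^ A`, the values `f(m)` counted are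
almost primes with at most `3 (A + 1) / δ` prime factors.

For a FIXED polynomial this is the starting result `ExactWindows` (there for all `X ≥ X₀(f)`, with `z = X ^ (1 / r)`).

Proof (`Pool/Agent/U497/AW`). The fundamental lemma of the sieve in the classes modulo `W = ∏_{p ≤ w} p`, for `f` and for
`f(m) f(m + h)`; the average of the singular series of the pairs over the `h ≤ l` in a class is `1 + o(1)` for `w → ∞` (for small primes by
Jensen's inequality with the weights `1 / (p log p)`, for large primes by convexity and `∑_h c_h(p) ≤ ρ(p)²`), without any condition on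
the coefficients. So the variance of the numbers of the `m` in the intervals `(n, n + D]`, `D V = K`, is at most `ε' (V D)²`; a weighted
maximal inequality (covering) gives all longer intervals at once, the reflected polynomial the windows on the other side.
-/

set_option autoImplicit false

namespace Pool.Agent.Results.MP_a1177c_nt.AlmostAllShortIntervals

open Finset Polynomial

/-- `a x ^ 2 + b x + c` is quadratic and has no fixed divisor; the admissible triples of the problem are those with, moreover,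
`a > 0` and nonsquare discriminant. -/
def Unobstructed (a b c : ℤ) : Prop := a ≠ 0 ∧ Int.gcd (Int.gcd a b : ℤ) c = 1 ∧ ¬ (Even (a + b) ∧ Even c)

/-- The number of the classes `n` modulo `p` for which `p` divides `a n ^ 2 + b n + c`. -/
def omega (a b c : ℤ) (p : ℕ) : ℕ :=
  ((range p).filter (fun n : ℕ => (p : ℤ) ∣ a * (n : ℤ) ^ 2 + b * n + c)).card

/-- The sieve product `∏_{p ≤ z} (1 - ω(p) / p)`. -/
noncomputable def density (a b c : ℤ) (z : ℕ) : ℝ :=
  ∏ p ∈ (Icc 1 z).filter Nat.Prime, (1 - (omega a b c p : ℝ) / p)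

/-- `x` has no prime factor `p ≤ z`. -/
def Rough (z : ℕ) (x : ℤ) : Prop := ∀ p : ℕ, p.Prime → p ≤ z → ¬ (p : ℤ) ∣ x

/-- The number of the `m` with `u < m ≤ v` for which `a m ^ 2 + b m + c` has no prime factor `p ≤ z`. -/
noncomputable def count (a b c : ℤ) (z u v : ℕ) : ℕ :=
  Set.ncard {m : ℕ | u < m ∧ m ≤ v ∧ Rough z (a * (m : ℤ) ^ 2 + b * m + c)}

/-- The integers `n` which lie in SOME window `(u, v]` inside `(Y, Y + H]` with `V (v - u) ≥ K`, `V = density a b c z`, in which the
number of such `m` differs from `V (v - u)` by more than `ε V (v - u)`. -/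
def exceptions (a b c : ℤ) (ε K : ℝ) (z Y H : ℕ) : Set ℕ :=
  {n : ℕ | ∃ u v : ℕ, Y ≤ u ∧ u < n ∧ n ≤ v ∧ v ≤ Y + H ∧ K ≤ density a b c z * ((v : ℝ) - u) ∧
    ε * (density a b c z * ((v : ℝ) - u)) < |(count a b c z u v : ℝ) - density a b c z * ((v : ℝ) - u)|}

/-- the polynomial -/
noncomputable def pol (a b c : ℤ) : Fin 1 → ℤ[X] := fun _ => C a * X ^ 2 + C b * X + C c

lemma pol_eval (a b c : ℤ) (i : Fin 1) (x : ℤ) : (pol a b c i).eval x = a * x ^ 2 + b * x + c := by
  unfold pol
  simp

lemma pol_coeff (a b c : ℤ) {T : ℤ} (ha : |a| ≤ T) (hb : |b| ≤ T) (hc : |c| ≤ T) (i : Fin 1) (j : ℕ) :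
    |(pol a b c i).coeff j| ≤ T := by
  have hT : 0 ≤ T := (abs_nonneg a).trans ha
  unfold pol
  have h : (C a * X ^ 2 + C b * X + C c : ℤ[X]).coeff j =
      a * (if j = 2 then 1 else 0) + b * (if 1 = j then 1 else 0) + (if j = 0 then c else 0) := by
    simp only [coeff_add, coeff_C_mul, coeff_X_pow, coeff_X, coeff_C]
  rw [h]
  rcases j with _ | _ | _ | j
  · simpa using hc
  · simpa using hb
  · simpa using ha
  · simpa using hT

lemma pol_adm {a b c : ℤ} (h : Unobstructed a b c) : Pool.Agent.U497.AW.Adm 1 2 (pol a b c) := by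
  obtain ⟨ha, hg, hpar⟩ := h
  have hdeg : (C a * X ^ 2 + C b * X + C c : ℤ[X]).natDegree = 2 := natDegree_quadratic ha
  refine ⟨fun i => ?_, fun i => ?_, fun p hp => ?_⟩
  · unfold pol
    rw [hdeg]
    norm_num
  · unfold pol
    rw [hdeg]
  · by_contra hcon
    push Not at hcon
    have hall : ∀ n : ℤ, (p : ℤ) ∣ a * n ^ 2 + b * n + c := by
      intro n
      obtain ⟨i, hi⟩ := hcon n
      rwa [pol_eval] at hi
    have h0 : (p : ℤ) ∣ c := by simpa using hall 0
    have h1 : (p : ℤ) ∣ a + b := by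
      have h2 := hall 1
      have h3 : a + b = (a * 1 ^ 2 + b * 1 + c) - c := by ring
      rw [h3]
      exact dvd_sub h2 h0
    have h2 : (p : ℤ) ∣ 2 * a := by
      have h3 := hall (-1)
      have h4 : 2 * a = ((a * (-1) ^ 2 + b * (-1) + c) - c) + (a + b) := by ring
      rw [h4]
      exact dvd_add (dvd_sub h3 h0) h1
    by_cases hp2 : p = 2
    · subst hp2
      apply hpar
      rw [even_iff_two_dvd, even_iff_two_dvd]
      exact ⟨by exact_mod_cast h1, by exact_mod_cast h0⟩
    · have h3 : (p : ℤ) ∣ a := by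
        rcases (Nat.prime_iff_prime_int.1 hp).dvd_or_dvd h2 with h4 | h4
        · exfalso
          have h5 : p ∣ 2 := by exact_mod_cast h4
          exact hp2 ((Nat.prime_dvd_prime_iff_eq hp Nat.prime_two).1 h5)
        · exact h4
      have h4 : (p : ℤ) ∣ b := by
        have h5 : b = (a + b) - a := by ring
        rw [h5]
        exact dvd_sub h1 h3
      have h5 : (p : ℤ) ∣ (Int.gcd (Int.gcd a b : ℤ) c : ℤ) := Int.dvd_coe_gcd (Int.dvd_coe_gcd h3 h4) h0
      rw [hg] at h5
      have h6 : p ∣ 1 := by exact_mod_cast h5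
      exact hp.one_lt.ne' (Nat.dvd_one.1 h6)

lemma density_eq (a b c : ℤ) (z : ℕ) : Pool.Agent.U497.AW.dens (pol a b c) z = density a b c z := by
  unfold Pool.Agent.U497.AW.dens density
  apply prod_congr rfl
  intro p _
  have h : Pool.Agent.U497.AW.om (pol a b c) p = omega a b c p := by
    unfold Pool.Agent.U497.AW.om omega
    congr 1
    apply filter_congr
    intro n _
    simp only [pol_eval, exists_const]
  rw [h]

lemma count_eq (a b c : ℤ) (z u v : ℕ) : Pool.Agent.U497.AW.cntW (pol a b c) z u v = count a b c z u v := by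
  unfold Pool.Agent.U497.AW.cntW count
  congr 1
  ext m
  simp only [pol_eval, forall_const]
  rfl

lemma exceptions_eq (a b c : ℤ) (ε K : ℝ) (z Y H : ℕ) :
    Pool.Agent.U497.AW.excW (pol a b c) ε K z Y H = exceptions a b c ε K z Y H := by
  unfold Pool.Agent.U497.AW.excW exceptions
  simp only [density_eq, count_eq]

/-- **Theorem.** -/
theorem result (ε θ : ℝ) (hε : 0 < ε) (hθ : 0 < θ) :
    ∃ δ K : ℝ, 0 < δ ∧ 0 < K ∧ ∃ H₀ : ℕ, ∀ H : ℕ, H₀ ≤ H → ∃ z : ℕ, (H : ℝ) ^ δ ≤ z ∧ (z : ℝ) ≤ (H : ℝ) ^ θ ∧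
      ∀ a b c : ℤ, Unobstructed a b c → ∀ Y : ℕ,
        ((exceptions a b c ε K z Y H).ncard : ℝ) ≤ ε * H ∧
        ∀ A : ℕ, |a| ≤ (H : ℤ) ^ A → |b| ≤ (H : ℤ) ^ A → |c| ≤ (H : ℤ) ^ A → Y ≤ H ^ A → ∀ m : ℕ, m ≤ Y + H →
          Rough z (a * (m : ℤ) ^ 2 + b * m + c) → a * (m : ℤ) ^ 2 + b * m + c ≠ 0 ∧
            ((a * (m : ℤ) ^ 2 + b * m + c).natAbs.primeFactorsList.length : ℝ) ≤ 3 * (A + 1) / δ := by
  obtain ⟨δ, K, hδ, hK, H₀, h1⟩ := Pool.Agent.U497.AW.polyWin 1 2 ε θ hε hθ
  refine ⟨δ, K, hδ, hK, H₀, fun H hH => ?_⟩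
  obtain ⟨z, hz1, hz2, hz3⟩ := h1 H hH
  refine ⟨z, hz1, hz2, fun a b c habc Y => ?_⟩
  obtain ⟨h2, h3⟩ := hz3 _ (pol_adm habc) Y
  rw [exceptions_eq] at h2
  refine ⟨h2, fun A ha hb hc hY m hm hr => ?_⟩
  have h4 := h3 A (pol_coeff a b c ha hb hc) hY m hm (fun i => by rw [pol_eval]; exact hr) 0
  rw [pol_eval] at h4
  refine ⟨h4.1, h4.2.trans (le_of_eq ?_)⟩
  push_cast
  ring

end Pool.Agent.Results.MP_a1177c_nt.AlmostAllShortIntervals
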