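import Pool.Agent.U497.AW.PolyA

/-!
# The prime values of almost all polynomials of height at most `H` in all short intervals

Let `d ≥ 1` (for example `d = 2`: quadratic polynomials). For all but at most `(log H)^(-U)` times the number of all integer
polynomials `f` of degree `d` with coefficients of absolute value at most `H`, those without fixed prime divisor satisfy, for ALL
`x` between `H ^ ε` and `H / (log H) ^ B`: the set `P` of the `n ≤ x` with `f(n)` prime has at least `x / (log H)²` elements, and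
EVERY subset `S` of `P` has the properties

(1) all elements of `S` with the exception of at most `κ |P|` are terms of `k`-term arithmetic progressions contained in `S` with
common difference at most `(log H) ^ B`;

(2) if `S` has at least `κ |P|` elements, then for at least `c₀ x` of the integers `n ≤ x` ALL intervals `(n, n + L]`
with `x ≤ c₀ |P| L`, `L ≤ x` simultaneously (that is those of all lengths from the average distance of the elements of `P` up to `x`)
contain at least `c₀ |P| L / x` elements of `S` which are terms of such progressions in `S`. Here `c₀ > 0` depends on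
`d, κ, ε, U` only, not on `k`.

Proof. (1) is `Pool/Agent/U497/SP`: Szemerédi's theorem relative to sifted sets (`K3h89/SZ`, starting files), moments over the constant
coefficient. The number of elements of `P`: `TH892/FullBox4` (starting files), compared with the sieve product by a second
moment over the constant coefficient. (2) is `Pool/Agent/U497/AW`, a theorem for dense subsets of arbitrary sifted sets: an upper
bound sieve for the `n` such that `f(n)` and `f(n + h)` have no small prime factors, the average over `h` of its singular series (for small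
primes by Jensen's inequality, for large primes by convexity) and a covering argument for all scales (`Pool/Agent/U28/PG`).
-/

set_option autoImplicit false

namespace Pool.Agent.Results.MP_a1177c_nt.PrimesInAllShortIntervals

open Finset Filter

/-- The value `f(n)` of the polynomial `f = c_0 + c_1 X + ... + c_d X ^ d`. -/
def value {d : ℕ} (c : Fin (d + 1) → ℤ) (n : ℤ) : ℤ := ∑ i : Fin (d + 1), c i * n ^ (i : ℕ)

/-- All polynomials of degree `d` with `|c_i| ≤ H` and `c_d ≥ 1`. -/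
noncomputable def box (d H : ℕ) : Finset (Fin (d + 1) → ℤ) :=
  Fintype.piFinset (fun i => if (i : ℕ) = d then Icc 1 (H : ℤ) else Icc (-(H : ℤ)) H)

/-- No prime divides all values of `f`. -/
def NoFixedDivisor {d : ℕ} (c : Fin (d + 1) → ℤ) : Prop :=
  ∀ p : ℕ, p.Prime → ∃ n : ℤ, ¬ (p : ℤ) ∣ value c n

/-- The `1 ≤ n ≤ x` for which `f(n)` is a (positive) prime. -/
def arguments {d : ℕ} (c : Fin (d + 1) → ℤ) (x : ℕ) : Set ℕ := {n : ℕ | 1 ≤ n ∧ n ≤ x ∧ (value c n).toNat.Prime}

/-- `n` is a term of an arithmetic progression with `k` terms, contained in `S`, with common difference at most `D`. -/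
def InProgression (S : Set ℕ) (k : ℕ) (D : ℝ) (n : ℕ) : Prop :=
  ∃ a r : ℕ, 1 ≤ r ∧ (r : ℝ) ≤ D ∧ (∀ i < k, a + i * r ∈ S) ∧ ∃ i < k, n = a + i * r

/-- The `1 ≤ n ≤ x` such that for ALL `L ≤ x` with `1 ≤ c u L` the interval `(n, n + L]` contains at least `c u L` elements
of `S`. -/
def richPoints (S : Set ℕ) (c u : ℝ) (x : ℕ) : Set ℕ :=
  {n : ℕ | 1 ≤ n ∧ n ≤ x ∧ ∀ L : ℕ, L ≤ x → 1 ≤ c * (u * L) →
    c * (u * L) ≤ (Set.ncard {m : ℕ | m ∈ S ∧ n < m ∧ m ≤ n + L} : ℝ)}

/-- The conclusion for one polynomial; `P` is the set `arguments c x`. -/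
def Good (k : ℕ) (κ ε c₀ : ℝ) (B H : ℕ) {d : ℕ} (c : Fin (d + 1) → ℤ) : Prop :=
  ∀ x : ℕ, (H : ℝ) ^ ε ≤ x → (x : ℝ) * Real.log H ^ B ≤ H →
    (x : ℝ) / Real.log H ^ 2 ≤ (arguments c x).ncard ∧
    ∀ S ⊆ arguments c x,
      (Set.ncard {n : ℕ | n ∈ S ∧ ¬ InProgression S k (Real.log H ^ B) n} : ℝ) ≤ κ * (arguments c x).ncard ∧
      (κ * (arguments c x).ncard ≤ S.ncard → c₀ * x ≤
        ((richPoints {n : ℕ | n ∈ S ∧ InProgression S k (Real.log H ^ B) n} c₀ ((arguments c x).ncard / x) x).ncard : ℝ))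

open Classical in
/-- The number of the polynomials without fixed prime divisor in the box for which the conclusion fails. -/
noncomputable def exceptions (d k : ℕ) (κ ε c₀ : ℝ) (B H : ℕ) : ℕ :=
  ((box d H).filter (fun c => NoFixedDivisor c ∧ ¬ Good k κ ε c₀ B H c)).card

/-- The admissible triples of the problem. -/
def Admissible (a b c : ℤ) : Prop :=
  0 < a ∧ Int.gcd (Int.gcd a b : ℤ) c = 1 ∧ ¬ IsSquare (b ^ 2 - 4 * a * c) ∧ ¬ (Even (a + b) ∧ Even c)

lemma arguments_eq {d : ℕ} (c : Fin (d + 1) → ℤ) (x : ℕ) :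
    arguments c x = ((Pool.Agent.U497.SP.PV (Pool.Agent.TH892.pol c) x : Finset ℕ) : Set ℕ) := by
  ext n
  unfold arguments Pool.Agent.U497.SP.PV value
  rw [mem_coe, mem_filter, mem_Icc, Pool.Agent.TH892.pol_eval]
  simp only [Set.mem_ofPred_eq]
  tauto

lemma rho_ne {d : ℕ} {c : Fin (d + 1) → ℤ} (h : NoFixedDivisor c) (p : ℕ) (hp : p.Prime) :
    Pool.Agent.H300R2.BH.rho (Pool.Agent.TH892.pol c) p ≠ p := by
  intro h0
  obtain ⟨n, hn⟩ := h p hp
  apply hn
  have h1 : (range p).filter (fun k : ℕ => (p : ℤ) ∣ (Pool.Agent.TH892.pol c).eval (k : ℤ)) = range p := by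
    apply eq_of_subset_of_card_le (filter_subset _ _)
    unfold Pool.Agent.H300R2.BH.rho at h0
    rw [h0, card_range]
  have hpz : (0 : ℤ) < p := by exact_mod_cast hp.pos
  have h2 : (n % (p : ℤ)).toNat ∈ range p := by
    rw [mem_range]
    have := Int.emod_lt_of_pos n hpz
    have := Int.emod_nonneg n hpz.ne'
    omega
  rw [← h1, mem_filter] at h2
  have h3 : (((n % (p : ℤ)).toNat : ℕ) : ℤ) = n % p := Int.toNat_of_nonneg (Int.emod_nonneg n hpz.ne')
  rw [h3] at h2
  have h4 := (Pool.Agent.U497.SP.dvd_shift (Pool.Agent.TH892.pol c) p n (n % p) Int.dvd_self_sub_emod).2 h2.2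
  rwa [Pool.Agent.TH892.pol_eval] at h4

/-- The admissible triples `(a, b, c)` of the problem give polynomials `a X² + b X + c` without fixed prime divisor. -/
theorem admissible_noFixedDivisor {a b c : ℤ} (h : Admissible a b c) :
    NoFixedDivisor (d := 2) ![c, b, a] := by
  obtain ⟨-, h2, -, h4⟩ := h
  intro p hp
  by_contra hcon
  push Not at hcon
  have hv : ∀ n : ℤ, value (d := 2) ![c, b, a] n = c + b * n + a * n ^ 2 := by
    intro n
    unfold value
    rw [Fin.sum_univ_three]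
    simp
  have e0 := hcon 0
  have e1 := hcon 1
  have e2 := hcon (-1)
  rw [hv] at e0 e1 e2
  have f0 : (p : ℤ) ∣ c := by simpa using e0
  have f1 : (p : ℤ) ∣ b + a := by
    have := dvd_sub e1 f0
    rwa [show c + b * 1 + a * 1 ^ 2 - c = b + a by ring] at this
  have f2 : (p : ℤ) ∣ a - b := by
    have := dvd_sub e2 f0
    rwa [show c + b * (-1) + a * (-1) ^ 2 - c = a - b by ring] at this
  by_cases hp2 : p = 2
  · subst hp2
    apply h4
    refine ⟨even_iff_two_dvd.2 ?_, even_iff_two_dvd.2 f0⟩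
    rw [add_comm]
    exact_mod_cast f1
  · have hpz : Prime (p : ℤ) := Nat.prime_iff_prime_int.1 hp
    have hn2 : ¬ (p : ℤ) ∣ 2 := by
      intro h3
      have h5 : p ∣ 2 := by exact_mod_cast h3
      exact hp2 ((Nat.prime_dvd_prime_iff_eq hp Nat.prime_two).1 h5)
    have g1 : (p : ℤ) ∣ 2 * a := by
      have := dvd_add f1 f2
      rwa [show b + a + (a - b) = 2 * a by ring] at this
    have g2 : (p : ℤ) ∣ 2 * b := by
      have := dvd_sub f1 f2
      rwa [show b + a - (a - b) = 2 * b by ring] at this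
    have g3 := (hpz.dvd_or_dvd g1).resolve_left hn2
    have g4 := (hpz.dvd_or_dvd g2).resolve_left hn2
    have h5 : (p : ℤ) ∣ (Int.gcd (Int.gcd a b : ℤ) c : ℤ) := Int.dvd_coe_gcd (Int.dvd_coe_gcd g3 g4) f0
    rw [h2] at h5
    have h6 : p ∣ 1 := by exact_mod_cast h5
    exact hp.one_lt.ne' (Nat.dvd_one.1 h6)

open Classical in
lemma rich_eq (T : Finset ℕ) (c N : ℝ) (x : ℕ) (hx : 0 < x) : ((richPoints (T : Set ℕ) c (N / x) x).ncard : ℝ) =
    (((Ioc 0 x).filter (fun n : ℕ => ∀ L : ℕ, (x : ℝ) ≤ c * (N * L) → L ≤ x →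
      c * (N * L) / x ≤ ((T.filter (fun m => m ∈ Ioc n (n + L))).card : ℝ))).card : ℝ) := by
  have hxr : (0 : ℝ) < x := by exact_mod_cast hx
  have h1 : ∀ n L : ℕ, Set.ncard {m : ℕ | m ∈ (T : Set ℕ) ∧ n < m ∧ m ≤ n + L} =
      (T.filter (fun m => m ∈ Ioc n (n + L))).card := by
    intro n L
    rw [← Set.ncard_coe_finset]
    congr 1
    ext m
    rw [mem_coe, mem_filter, mem_Ioc]
    rfl
  have h2 : ∀ L : ℕ, c * (N / x * L) = c * (N * L) / x := by
    intro L
    ring
  have h3 : ∀ L : ℕ, 1 ≤ c * (N * L) / x ↔ (x : ℝ) ≤ c * (N * L) := by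
    intro L
    rw [le_div_iff₀ hxr, one_mul]
  rw [← Set.ncard_coe_finset]
  congr 2
  ext n
  rw [mem_coe, mem_filter, mem_Ioc, richPoints, Set.mem_ofPred_eq]
  simp only [h1, h2, h3]
  constructor
  · rintro ⟨h4, h5, h6⟩
    exact ⟨⟨by omega, h5⟩, fun L hL1 hL2 => h6 L hL2 hL1⟩
  · rintro ⟨⟨h4, h5⟩, h6⟩
    exact ⟨by omega, h5, fun L hL1 hL2 => h6 L hL2 hL1⟩

/-- **Theorem.** The second part says that it concerns the admissible triples of the problem. -/
theorem result :
    (∀ (d U : ℕ) (κ ε : ℝ), 1 ≤ d → 0 < κ → 0 < ε → ∃ c₀ : ℝ, 0 < c₀ ∧ ∀ k : ℕ, 2 ≤ k →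
      ∃ B H₀ : ℕ, ∀ H : ℕ, H₀ ≤ H → (exceptions d k κ ε c₀ B H : ℝ) ≤ (box d H).card / Real.log H ^ U) ∧
    ∀ a b c : ℤ, Admissible a b c → NoFixedDivisor (d := 2) ![c, b, a] := by
  classical
  refine ⟨fun d U κ ε hd hκ hε => ?_, fun a b c h => admissible_noFixedDivisor h⟩
  obtain ⟨c₀, hc₀, hA⟩ := Pool.Agent.U497.AW.polyA d hd κ ε hκ hε (U + 1)
  refine ⟨c₀, hc₀, fun k hk => ?_⟩
  obtain ⟨B₁, H₁, h1⟩ := Pool.Agent.U497.SP.main d hd k hk κ ε hκ hε (U + 1)
  obtain ⟨B₂, H₂, h2⟩ := hA k hk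
  obtain ⟨H₃, hH₃⟩ := eventually_atTop.1 ((Pool.Agent.H442R2.EHI.evt_log_ge 2).and (eventually_ge_atTop 1))
  refine ⟨max B₁ B₂, max (max H₁ H₂) H₃, fun H hH => ?_⟩
  obtain ⟨Bad1, b1, b2⟩ := h1 H ((le_max_left _ _).trans ((le_max_left _ _).trans hH))
  obtain ⟨Bad2, b3, b4⟩ := h2 H ((le_max_right _ _).trans ((le_max_left _ _).trans hH))
  obtain ⟨k1, k2⟩ := hH₃ H ((le_max_right _ _).trans hH)
  have hL1 : (1 : ℝ) ≤ Real.log H := by linarith
  have hHR : (0 : ℝ) < H := by exact_mod_cast k2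
  have hbadc : ((Bad1 ∪ Bad2).card : ℝ) ≤ (box d H).card / Real.log H ^ U := by
    have h5 : ((Bad1 ∪ Bad2).card : ℝ) ≤ Bad1.card + Bad2.card := by exact_mod_cast card_union_le _ _
    have h6 : ((box d H).card : ℝ) / Real.log H ^ (U + 1) ≤ ((box d H).card : ℝ) / Real.log H ^ U / 2 := by
      rw [pow_succ, ← div_div]
      exact div_le_div_of_nonneg_left (by positivity) (by norm_num) k1
    have h7 : (Bad1.card : ℝ) ≤ ((box d H).card : ℝ) / Real.log H ^ (U + 1) := b1
    have h8 : (Bad2.card : ℝ) ≤ ((box d H).card : ℝ) / Real.log H ^ (U + 1) := b3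
    linarith
  refine le_trans ?_ hbadc
  unfold exceptions
  have hsub : (box d H).filter (fun c => NoFixedDivisor c ∧ ¬ Good k κ ε c₀ (max B₁ B₂) H c) ⊆ Bad1 ∪ Bad2 := by
    intro c hc
    rw [mem_filter] at hc
    obtain ⟨hc, hadm, hng⟩ := hc
    by_contra hB
    rw [mem_union, not_or] at hB
    apply hng
    intro x hx1 hx2
    have hxpos : (0 : ℝ) < x := lt_of_lt_of_le (Real.rpow_pos_of_pos hHR ε) hx1
    have hxn : 0 < x := by exact_mod_cast hxpos
    have hxB : ∀ B' : ℕ, B' ≤ max B₁ B₂ → (x : ℝ) * Real.log H ^ B' ≤ H := by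
      intro B' hB'
      refine le_trans ?_ hx2
      apply mul_le_mul_of_nonneg_left _ hxpos.le
      exact pow_le_pow_right₀ hL1 hB'
    obtain ⟨g1, g2⟩ := b2 c hc hB.1 (rho_ne hadm) x hx1 (hxB _ (le_max_left _ _))
    obtain ⟨-, g3⟩ := b4 c hc hB.2 (rho_ne hadm) x hx1 (hxB _ (le_max_right _ _))
    rw [arguments_eq, Set.ncard_coe_finset]
    refine ⟨g1, fun S hS => ?_⟩
    have hfin : S.Finite := (Finset.finite_toSet _).subset hS
    obtain ⟨T, rfl⟩ : ∃ T : Finset ℕ, S = (T : Set ℕ) := ⟨hfin.toFinset, hfin.coe_toFinset.symm⟩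
    have hT : T ⊆ Pool.Agent.U497.SP.PV (Pool.Agent.TH892.pol c) x := fun n hn => mem_coe.1 (hS (mem_coe.2 hn))
    have hmono : ∀ B' : ℕ, B' ≤ max B₁ B₂ → ∀ n, Pool.Agent.U497.SP.InP T k (Real.log H ^ B') n →
        InProgression (T : Set ℕ) k (Real.log H ^ max B₁ B₂) n := by
      intro B' hB' n hn
      obtain ⟨a, r, e1, e2, e3, e4⟩ := hn
      exact ⟨a, r, e1, e2.trans (pow_le_pow_right₀ hL1 hB'), fun i hi => mem_coe.2 (e3 i hi), e4⟩
    constructor
    · refine le_trans ?_ (g2 T hT)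
      have h9 : {n : ℕ | n ∈ (T : Set ℕ) ∧ ¬ InProgression (T : Set ℕ) k (Real.log H ^ max B₁ B₂) n} ⊆
          {n : ℕ | n ∈ T ∧ ¬ Pool.Agent.U497.SP.InP T k (Real.log H ^ B₁) n} := by
        intro n hn
        exact ⟨mem_coe.1 hn.1, fun h10 => hn.2 (hmono B₁ (le_max_left _ _) n h10)⟩
      have h11 : {n : ℕ | n ∈ T ∧ ¬ Pool.Agent.U497.SP.InP T k (Real.log H ^ B₁) n}.Finite :=
        (Finset.finite_toSet T).subset fun n hn => mem_coe.2 hn.1
      exact_mod_cast Set.ncard_le_ncard h9 h11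
    · intro hTc
      rw [Set.ncard_coe_finset] at hTc
      have h12 := g3 T hT hTc
      have h13 : {n : ℕ | n ∈ (T : Set ℕ) ∧ InProgression (T : Set ℕ) k (Real.log H ^ max B₁ B₂) n} =
          ((T.filter (fun n => InProgression (T : Set ℕ) k (Real.log H ^ max B₁ B₂) n) : Finset ℕ) : Set ℕ) := by
        ext n
        rw [mem_coe, mem_filter]
        rfl
      rw [h13, rich_eq _ _ _ _ hxn]
      refine h12.trans ?_
      have h14 : (Ioc 0 x).filter (fun n : ℕ => ∀ M : ℕ,
          (x : ℝ) ≤ c₀ * ((Pool.Agent.U497.SP.PV (Pool.Agent.TH892.pol c) x).card * M) → M ≤ x →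
          c₀ * ((Pool.Agent.U497.SP.PV (Pool.Agent.TH892.pol c) x).card * M) / x ≤
          ((T.filter (fun m => Pool.Agent.U497.SP.InP T k (Real.log H ^ B₂) m ∧ m ∈ Ioc n (n + M))).card : ℝ)) ⊆
          (Ioc 0 x).filter (fun n : ℕ => ∀ L : ℕ,
          (x : ℝ) ≤ c₀ * ((Pool.Agent.U497.SP.PV (Pool.Agent.TH892.pol c) x).card * L) → L ≤ x →
          c₀ * ((Pool.Agent.U497.SP.PV (Pool.Agent.TH892.pol c) x).card * L) / x ≤
          (((T.filter (fun n => InProgression (T : Set ℕ) k (Real.log H ^ max B₁ B₂) n)).filter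
            (fun m => m ∈ Ioc n (n + L))).card : ℝ)) := by
        intro n hn
        rw [mem_filter] at hn ⊢
        refine ⟨hn.1, fun L hL1' hL2 => (hn.2 L hL1' hL2).trans ?_⟩
        have h15 : T.filter (fun m => Pool.Agent.U497.SP.InP T k (Real.log H ^ B₂) m ∧ m ∈ Ioc n (n + L)) ⊆
            (T.filter (fun n => InProgression (T : Set ℕ) k (Real.log H ^ max B₁ B₂) n)).filter
            (fun m => m ∈ Ioc n (n + L)) := by
          intro m hm
          rw [mem_filter] at hm
          rw [mem_filter, mem_filter]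
          exact ⟨⟨hm.1, hmono B₂ (le_max_right _ _) m hm.2.1⟩, hm.2.2⟩
        exact_mod_cast card_le_card h15
      exact_mod_cast card_le_card h14
  exact_mod_cast card_le_card hsub

end Pool.Agent.Results.MP_a1177c_nt.PrimesInAllShortIntervals
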