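import Pool.Agent.U325.PQ.Form

set_option autoImplicit false

/-!
# The parity barrier for prime values of quadratic polynomials, including Iwaniec's sieve

The results of sieve type on the values of a quadratic polynomial `f(n) = α n² + β n + c` (upper bounds of
the expected order; Iwaniec: infinitely many `n² + 1` with at most two prime factors) bound the indicator
function of the prime values by a combination `F(n)` of sieve functions, sums of weights over the divisors
`d` of `f(n)`. Remainder terms which are estimated one by one allow divisors up to `x ^ (1 - o(1))` for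
`n ≤ x`; Iwaniec reaches the level `x ^ (16 / 15)` by the weights of the linear sieve, which are the same for
all polynomials.

The theorem: for almost all `c ≤ x ^ 2`, uniformly in `α` and `β`, the true sum of such a combination does not
see the parity of the number `Ω(f(n))`. Here `F(n)` is a combination of sums over the divisors of `f(n)` of

* ARBITRARY weights of the level `x exp (-(log x) ^ δ)`, which may depend on the polynomial, multiplied by
  arbitrary bounded functions `a(d, n)`, and
* arbitrary weights of the level `x ^ 2 exp (-(log x) ^ δ)`, nearly the size of the values, which do not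
  depend on `c` (as in the linear sieve), multiplied by arbitrary bounded functions `b(n)`.

So whatever is known on `n` (for instance that it is prime), such arguments give neither the existence of
prime values for all `c`, nor an upper bound better than twice the truth.

Idea of the proof. The mean square over `c` of the sum of `a(d, n) λ(f(n))` over the `n` with `d ∣ f(n)` is a
sum of autocorrelations of `λ` on the multiples of `d`, at the differences `(m - n)(α (m + n) + β)`, which
represent each integer at most as often as it has divisors; so the inequality of Cauchy and Schwarz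
loses only powers of the logarithm, and the sum of the squares of the autocorrelations is small by the
bound of Davenport.
-/

namespace Pool.Agent.Results.MP_a1177c_nt.QuadraticParityBarrier

open Finset
open Pool.Agent.U325.PQ (IsSieve comb)
open ArithmeticFunction (cardFactors)

/-- Let `A`, `C` be natural numbers and `δ > 0`, `L = log x`. For all large `x`, all `K ≤ L ^ C`, `1 ≤ α ≤ L ^ C`,
`0 ≤ β ≤ x L ^ C`, all functions `a_k(d, n)`, `b_k(n)` with values in `[-1, 1]` and all sieve weights `σ_k` of
level `x ^ 2 exp (-L ^ δ)`, `k ≤ K`, all integers `1 ≤ c ≤ x ^ 2` but at most `x ^ 2 / L ^ A` have the following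
property. Let `f(n) = α n² + β n + c` and let `F(n)` be the sum over `k` and over the divisors `d` of `f(n)` of
`ρ_k(d) a_k(d, n) + σ_k(d) b_k(n)`, with ANY sieve weights `ρ_k` of level `x exp (-L ^ δ)` (they may depend
on `c`).
(0) The sum of `(-1) ^ Ω(f(n)) F(n)` over `n ≤ x` is at most `x / L ^ A` in absolute value.
(1) If `F(n) ≤ 0` for all `n ≤ x` with `Ω(f(n))` even, then the sum of `F(n)` over `n ≤ x` is at most
`x / L ^ A`.
(2) If `F(n) ≥ 0` for all `n ≤ x`, and `F(n) ≥ 1` if `f(n)` is prime, then the sum of `F(n)` is at least twice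
the number of the `n ≤ x` for which `f(n)` is prime, minus `x / L ^ A`. -/
theorem result (A C : ℕ) (δ : ℝ) (hδ : 0 < δ) :
    ∃ x₀ : ℕ, ∀ x : ℕ, x₀ ≤ x → ∀ (K α β : ℕ) (a : Fin K → ℕ → ℕ → ℝ) (b σ : Fin K → ℕ → ℝ),
      (K : ℝ) ≤ Real.log x ^ C → 1 ≤ α → (α : ℝ) ≤ Real.log x ^ C → (β : ℝ) ≤ x * Real.log x ^ C →
      (∀ k d n, |a k d n| ≤ 1) → (∀ k n, |b k n| ≤ 1) → (∀ k, IsSieve C δ x ((x : ℝ) ^ 2) (σ k)) →
    ∃ E : Finset ℕ, (E.card : ℝ) ≤ (x : ℝ) ^ 2 / Real.log x ^ A ∧ ∀ c : ℕ, 1 ≤ c → c ≤ x ^ 2 → c ∉ E →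
      ∀ ρ : Fin K → ℕ → ℝ, (∀ k, IsSieve C δ x x (ρ k)) →
      |∑ n ∈ Icc 1 x, (-1 : ℝ) ^ cardFactors (α * n ^ 2 + β * n + c) * comb α β c a b σ ρ n| ≤
        x / Real.log x ^ A ∧
      ((∀ n ∈ Icc 1 x, Even (cardFactors (α * n ^ 2 + β * n + c)) → comb α β c a b σ ρ n ≤ 0) →
        ∑ n ∈ Icc 1 x, comb α β c a b σ ρ n ≤ x / Real.log x ^ A) ∧
      ((∀ n ∈ Icc 1 x, 0 ≤ comb α β c a b σ ρ n) →
        (∀ n ∈ Icc 1 x, (α * n ^ 2 + β * n + c).Prime → 1 ≤ comb α β c a b σ ρ n) →
        2 * (((Icc 1 x).filter fun n => (α * n ^ 2 + β * n + c).Prime).card : ℝ) - x / Real.log x ^ A ≤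
          ∑ n ∈ Icc 1 x, comb α β c a b σ ρ n) := by
  obtain ⟨x₀, hx₀⟩ := Pool.Agent.U325.PQ.few A C δ hδ
  refine ⟨x₀, fun x hx K α β a b σ hK hα hαL hβL ha hb hσ => ?_⟩
  obtain ⟨hL1, hmain⟩ := hx₀ x hx
  obtain ⟨E, hE, hc⟩ := hmain K α β a b σ hK hα hαL hβL ha hb hσ
  refine ⟨E, hE, fun c hc1 hcx hcE ρ hρ => ?_⟩
  set B : ℝ := x / Real.log x ^ A with hB
  have h0 : |∑ n ∈ Icc 1 x, (-1 : ℝ) ^ cardFactors (α * n ^ 2 + β * n + c) * comb α β c a b σ ρ n| ≤ B :=
    (Pool.Agent.U325.PQ.comb_bound C δ α β x c hL1 hc1 a b σ ρ hρ).trans (hc c (mem_Icc.2 ⟨hc1, hcx⟩) hcE)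
  obtain ⟨hlow, hup⟩ := abs_le.1 h0
  refine ⟨h0, fun h1 => ?_, fun h1 h2 => ?_⟩
  · -- lower bounds
    have h3 : ∑ n ∈ Icc 1 x, comb α β c a b σ ρ n ≤
        -∑ n ∈ Icc 1 x, (-1 : ℝ) ^ cardFactors (α * n ^ 2 + β * n + c) * comb α β c a b σ ρ n := by
      rw [← sum_neg_distrib]
      refine sum_le_sum fun n hn => ?_
      rcases Nat.even_or_odd (cardFactors (α * n ^ 2 + β * n + c)) with he | ho
      · rw [he.neg_one_pow]
        have := h1 n hn he
        linarith
      · rw [ho.neg_one_pow]
        linarith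
    linarith
  · -- upper bounds
    have h3 : 2 * (((Icc 1 x).filter fun n => (α * n ^ 2 + β * n + c).Prime).card : ℝ) ≤
        ∑ n ∈ Icc 1 x, (comb α β c a b σ ρ n -
          (-1 : ℝ) ^ cardFactors (α * n ^ 2 + β * n + c) * comb α β c a b σ ρ n) := by
      have e1 : 2 * (((Icc 1 x).filter fun n => (α * n ^ 2 + β * n + c).Prime).card : ℝ) =
          ∑ n ∈ Icc 1 x, if (α * n ^ 2 + β * n + c).Prime then (2 : ℝ) else 0 := by
        rw [← sum_filter, sum_const, nsmul_eq_mul]
        ring
      rw [e1]
      refine sum_le_sum fun n hn => ?_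
      have hF := h1 n hn
      by_cases hp : (α * n ^ 2 + β * n + c).Prime
      · rw [if_pos hp]
        have hF1 := h2 n hn hp
        rw [ArithmeticFunction.cardFactors_apply_prime hp]
        norm_num
        linarith
      · rw [if_neg hp]
        rcases neg_one_pow_eq_or ℝ (cardFactors (α * n ^ 2 + β * n + c)) with h4 | h4 <;> rw [h4] <;> linarith
    rw [sum_sub_distrib] at h3
    linarith

end Pool.Agent.Results.MP_a1177c_nt.QuadraticParityBarrier
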