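import Mathlib
import Pool.Agent.U464.PD.Quad2

/-!
# The prediction of Hardy and Littlewood for ALL admissible quadratic polynomials of height up to any power of `x`,
# at arguments with prescribed leading digits and restricted last digits: the order of magnitude for almost primes

The arguments are the integers `m` whose leading digits in base `b` are prescribed (`m` lies in the interval
`[b ^ K t, b ^ K (t + 1))`) and whose `K` last digits are restricted: the `i`-th digit belongs to `A i`, where the
sets `A i` are arbitrary, only the product of the `|A i|` is at least `exp (- δ K) b ^ K`. Put `x = b ^ K`. The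
coefficients `a ≠ 0`, `e`, `c` of the polynomial `a m ^ 2 + e m + c` and the leading digits `t` are arbitrary integers
up to any given power of `x`, the polynomial has no fixed prime divisor and may be reducible. The prediction is
`ε C_x ∏_{p > 2, p ∣ gcd (a, e)} p / (p - 1)` times `∏ |A i| / K`, where `C_x` is the product `C(a, e, c)` of the problem
over the primes `p ≤ x`. Uniformly in the polynomial, in the leading digits and in the sets `A i`:

* at most a constant times this number of the `m` are such that `a m ^ 2 + e m + c` has no prime factor up to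
  `x ^ (1 / r)`; this includes all `m` for which it is a prime larger than `x ^ (1 / r)`;
* if there is no local obstruction at the primes dividing `b`, then at least a constant times this number of the `m`
  are such that moreover `a m ^ 2 + e m + c` has at most `r` prime factors.

Proof: the local product is computed in `Pool/Agent/U464/PD/Quad.lean`; the sieve for integers with restricted digits
is `Pool.Agent.Y816.PD.uni_fun` of the starting library.
-/

set_option autoImplicit false

namespace Pool.Agent.Results.MP_a1177c_nt.RestrictedDigits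

open Finset Filter

/-- `ε = 2` if `a + e` is even and `ε = 1` if `a + e` is odd -/
noncomputable def eps (a e : ℤ) : ℝ := if (2 : ℤ) ∣ a + e then 2 else 1

/-- the product `∏_{p > 2, p ∣ gcd (a, e)} p / (p - 1)` -/
noncomputable def gcdProd (a e : ℤ) : ℝ :=
  ∏ p ∈ (Int.gcd a e).primeFactors.filter (fun p => 2 < p), (p : ℝ) / (p - 1)

/-- the product `∏_{2 < p ≤ z, p ∤ a} (1 - (D / p) / (p - 1))`, where `D = e² - 4 a c` -/
noncomputable def partialC (a e c : ℤ) (z : ℕ) : ℝ :=
  ∏ p ∈ (Icc 3 z).filter (fun p : ℕ => p.Prime ∧ ¬ (p : ℤ) ∣ a),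
    (1 - (jacobiSym (e ^ 2 - 4 * a * c) p : ℝ) / (p - 1))

/-- The `m` in `[b ^ K t, b ^ K (t + 1))` whose `i`-th digit in base `b` (the digit of the units for `i = 0`) belongs
to `A i` for all `i < K`, and such that all prime factors of `a m ^ 2 + e m + c` are larger than `b ^ (K / r)`. -/
def Rough (a e c : ℤ) (b K t r : ℕ) (A : ℕ → Finset ℕ) : Set ℕ :=
  {m | b ^ K * t ≤ m ∧ m < b ^ K * (t + 1) ∧ (∀ i < K, m / b ^ i % b ∈ A i) ∧
    ∀ q : ℕ, q.Prime → (q : ℤ) ∣ a * (m : ℤ) ^ 2 + e * m + c → b ^ K < q ^ r}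

/-- The elements `m` of `Rough` for which `a m ^ 2 + e m + c` has at most `r` prime factors, with multiplicity. -/
def AlmostPrime (a e c : ℤ) (b K t r : ℕ) (A : ℕ → Finset ℕ) : Set ℕ :=
  {m | m ∈ Rough a e c b K t r A ∧ (a * (m : ℤ) ^ 2 + e * m + c).natAbs.primeFactorsList.length ≤ r}

/-- **All admissible quadratic polynomials at arguments with restricted digits.** -/
theorem result (D : ℕ) :
    ∃ δ : ℝ, 0 < δ ∧ ∃ r₀ : ℕ, 2 ≤ r₀ ∧ ∀ r : ℕ, r₀ ≤ r → ∀ b : ℕ, 2 ≤ b → ∃ κ C : ℝ, 0 < κ ∧ 0 < C ∧
      ∀ᶠ K : ℕ in atTop, ∀ a e c : ℤ, a ≠ 0 → |a| ≤ (b : ℤ) ^ (D * K) → |e| ≤ (b : ℤ) ^ (D * K) →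
        |c| ≤ (b : ℤ) ^ (D * K) → ¬ ((2 : ℤ) ∣ a + e ∧ (2 : ℤ) ∣ c) →
        (∀ p : ℕ, p.Prime → ¬ ((p : ℤ) ∣ a ∧ (p : ℤ) ∣ e ∧ (p : ℤ) ∣ c)) →
        ∀ t : ℕ, t ≤ b ^ (D * K) → ∀ A : ℕ → Finset ℕ, (∀ i < K, A i ⊆ range b) →
          (b : ℝ) ^ K ≤ Real.exp (δ * K) * ∏ i ∈ range K, ((A i).card : ℝ) →
          ((∃ d ∈ A 0, (a * (d : ℤ) ^ 2 + e * d + c).natAbs.Coprime b) →
            κ * (∏ i ∈ range K, ((A i).card : ℝ)) * (eps a e * partialC a e c (b ^ K) * gcdProd a e / K) ≤
              ((AlmostPrime a e c b K t r A).ncard : ℝ)) ∧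
          ((Rough a e c b K t r A).ncard : ℝ) ≤
            C * (∏ i ∈ range K, ((A i).card : ℝ)) * (eps a e * partialC a e c (b ^ K) * gcdProd a e / K) :=
  Pool.Agent.U464.PD.quad D

end Pool.Agent.Results.MP_a1177c_nt.RestrictedDigits
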